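import Mathlib

set_option autoImplicit false

namespace Pool.Agent.Lib.MP_96d021

open Finset

/-- Every admissible choice of one pair of distinct vertices from each edge with at least two
vertices can be properly coloured with `k` colours. -/
def AllCol {V ι : Type} (e : ι → Finset V) (k : ℕ) : Prop :=
  ∀ p : ι → V × V,
    (∀ i, 2 ≤ (e i).card → (p i).1 ∈ e i ∧ (p i).2 ∈ e i ∧ (p i).1 ≠ (p i).2) →
    ∃ φ : V → Fin k, ∀ i, 2 ≤ (e i).card → φ (p i).1 ≠ φ (p i).2

/-! ### Sub-edges of bounded size -/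

lemma small_part {V ι : Type} [Nonempty V] {e : ι → Finset V} {k : ℕ} (h : AllCol e k)
    (L : ι → Finset V) (hL : ∀ i, L i ⊆ e i) (t : ℕ) (hLt : ∀ i, (L i).card ≤ t) :
    ∃ c : V → (Fin t × Fin t → Fin k), ∀ i, ∀ u ∈ L i, ∀ v ∈ L i, u ≠ v → c u ≠ c v := by
  classical
  have hpos : ∀ i, ∃ g : V → Option (Fin t), (∀ u ∈ L i, ∃ a, g u = some a) ∧
      ∀ u ∈ L i, ∀ v ∈ L i, g u = g v → u = v := by
    intro i
    have h1 : Fintype.card (L i) ≤ Fintype.card (Fin t) := by
      rw [Fintype.card_coe, Fintype.card_fin]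
      exact hLt i
    obtain ⟨em⟩ := Function.Embedding.nonempty_of_card_le h1
    refine ⟨fun u => if hu : u ∈ L i then some (em ⟨u, hu⟩) else none, ?_, ?_⟩
    · intro u hu
      exact ⟨em ⟨u, hu⟩, by simp [hu]⟩
    · intro u hu v hv huv
      simp only [hu, hv, dif_pos, Option.some.injEq] at huv
      have := em.injective huv
      exact congrArg Subtype.val this
  choose g hg1 hg2 using hpos
  have hp : ∀ ab : Fin t × Fin t, ∀ i, ∃ p : V × V,
      (2 ≤ (e i).card → p.1 ∈ e i ∧ p.2 ∈ e i ∧ p.1 ≠ p.2) ∧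
      ∀ u ∈ L i, ∀ v ∈ L i, u ≠ v → g i u = some ab.1 → g i v = some ab.2 → p = (u, v) := by
    intro ab i
    by_cases hex : ∃ u ∈ L i, ∃ v ∈ L i, u ≠ v ∧ g i u = some ab.1 ∧ g i v = some ab.2
    · obtain ⟨u, hu, v, hv, huv, hgu, hgv⟩ := hex
      refine ⟨(u, v), fun _ => ⟨hL i hu, hL i hv, huv⟩, ?_⟩
      intro u' hu' v' hv' _ hgu' hgv'
      rw [hg2 i u hu u' hu' (hgu.trans hgu'.symm), hg2 i v hv v' hv' (hgv.trans hgv'.symm)]
    · by_cases h2 : 2 ≤ (e i).card
      · obtain ⟨a, ha, b, hb, hab⟩ := Finset.one_lt_card.mp h2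
        exact ⟨(a, b), fun _ => ⟨ha, hb, hab⟩,
          fun u hu v hv huv hgu hgv => absurd ⟨u, hu, v, hv, huv, hgu, hgv⟩ hex⟩
      · obtain ⟨x⟩ := (inferInstance : Nonempty V)
        exact ⟨(x, x), fun h3 => absurd h3 h2,
          fun u hu v hv huv hgu hgv => absurd ⟨u, hu, v, hv, huv, hgu, hgv⟩ hex⟩
  choose p hp1 hp2 using hp
  choose φ hφ using fun ab => h (p ab) (hp1 ab)
  refine ⟨fun x ab => φ ab x, ?_⟩
  intro i u hu v hv huv hc
  obtain ⟨a, ha⟩ := hg1 i u hu
  obtain ⟨b, hb⟩ := hg1 i v hv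
  have h1 := hp2 (a, b) i u hu v hv huv ha hb
  have h2 : 2 ≤ (e i).card := Finset.one_lt_card.mpr ⟨u, hL i hu, v, hL i hv, huv⟩
  have h3 := hφ (a, b) i h2
  rw [h1] at h3
  exact h3 (congrFun hc (a, b))

/-! ### Counting colourings -/

/-- For every colouring of a set `T` of at least `2k` points with `k` colours, at least a fraction
`1 / (2k)` of the pairs is monochromatic. -/
lemma mono_pairs {α : Type} [DecidableEq α] {k : ℕ} (hk : 1 ≤ k) (T : Finset α)
    (hT : 2 * k ≤ T.card) (φ : α → Fin k) :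
    T.offDiag.card ≤ 2 * k * (T.offDiag.filter (fun p => φ p.1 = φ p.2)).card := by
  set m := T.card with hm
  have h1 : T.offDiag.card = m * m - m := by rw [Finset.offDiag_card]
  -- number of all monochromatic pairs including the diagonal
  have h2 : (T.offDiag.filter (fun p => φ p.1 = φ p.2)).card + m =
      ((T ×ˢ T).filter (fun p => φ p.1 = φ p.2)).card := by
    have h3 : (T ×ˢ T).filter (fun p => φ p.1 = φ p.2) =
        T.offDiag.filter (fun p => φ p.1 = φ p.2) ∪ T.diag := by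
      ext ⟨a, b⟩
      simp only [mem_filter, mem_product, mem_union, mem_offDiag, mem_diag]
      constructor
      · rintro ⟨⟨ha, hb⟩, hab⟩
        by_cases hne : a = b
        · exact Or.inr ⟨ha, hne⟩
        · exact Or.inl ⟨⟨ha, hb, hne⟩, hab⟩
      · rintro (⟨⟨ha, hb, _⟩, hab⟩ | ⟨ha, hab⟩)
        · exact ⟨⟨ha, hb⟩, hab⟩
        · subst hab
          exact ⟨⟨ha, ha⟩, rfl⟩
    rw [h3, Finset.card_union_of_disjoint, Finset.diag_card]
    rw [Finset.disjoint_left]
    rintro ⟨a, b⟩ hab hab'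
    simp only [mem_filter, mem_offDiag, mem_diag] at hab hab'
    exact hab.1.2.2 hab'.2
  have h4 : ((T ×ˢ T).filter (fun p => φ p.1 = φ p.2)).card =
      ∑ j : Fin k, (T.filter (fun x => φ x = j)).card ^ 2 := by
    rw [Finset.card_eq_sum_card_fiberwise (f := fun p : α × α => φ p.1) (t := Finset.univ)
      (fun _ _ => Finset.mem_coe.mpr (Finset.mem_univ _))]
    apply Finset.sum_congr rfl
    intro j _
    rw [sq, ← Finset.card_product]
    congr 1
    ext ⟨a, b⟩
    simp only [mem_filter, mem_product]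
    constructor
    · rintro ⟨⟨⟨ha, hb⟩, hab⟩, haj⟩
      exact ⟨⟨ha, haj⟩, ⟨hb, hab ▸ haj⟩⟩
    · rintro ⟨⟨ha, haj⟩, ⟨hb, hbj⟩⟩
      exact ⟨⟨⟨ha, hb⟩, haj.trans hbj.symm⟩, haj⟩
  have h5 : ∑ j : Fin k, (T.filter (fun x => φ x = j)).card = m := by
    rw [hm, Finset.card_eq_sum_card_fiberwise (f := φ) (t := Finset.univ)
      (fun _ _ => Finset.mem_coe.mpr (Finset.mem_univ _))]
  have h6 : m ^ 2 ≤ k * ∑ j : Fin k, (T.filter (fun x => φ x = j)).card ^ 2 := by
    have := sq_sum_le_card_mul_sum_sq (s := (Finset.univ : Finset (Fin k)))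
      (f := fun j => (T.filter (fun x => φ x = j)).card)
    rw [h5, Finset.card_univ, Fintype.card_fin] at this
    exact this
  rw [← h4, ← h2] at h6
  rw [h1]
  set M := (T.offDiag.filter (fun p => φ p.1 = φ p.2)).card with hM
  have h7 : m * m ≤ 2 * k * M + m := by
    nlinarith [h6, hT, hk]
  omega

/-- Averaging: some pair in `T` is monochromatic for a fraction `1 / (2k)` of a given set of
colourings. -/
lemma exists_pair {α : Type} [DecidableEq α] {k : ℕ} (hk : 1 ≤ k) (T : Finset α)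
    (hT : 2 * k ≤ T.card) (Φ : Finset (α → Fin k)) :
    ∃ p ∈ T.offDiag, Φ.card ≤ 2 * k * (Φ.filter (fun φ => φ p.1 = φ p.2)).card := by
  by_contra hcon
  push Not at hcon
  have hne : T.offDiag.Nonempty := by
    obtain ⟨a, ha, b, hb, hab⟩ := Finset.one_lt_card.mp (show 1 < T.card by omega)
    exact ⟨(a, b), by simp [ha, hb, hab]⟩
  have h1 : ∑ p ∈ T.offDiag, 2 * k * (Φ.filter (fun φ => φ p.1 = φ p.2)).card <
      ∑ p ∈ T.offDiag, Φ.card := Finset.sum_lt_sum_of_nonempty hne hcon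
  have h2 : ∑ p ∈ T.offDiag, (Φ.filter (fun φ => φ p.1 = φ p.2)).card =
      ∑ φ ∈ Φ, (T.offDiag.filter (fun p => φ p.1 = φ p.2)).card := by
    simp only [Finset.card_filter]
    exact Finset.sum_comm
  rw [← Finset.mul_sum, h2, Finset.mul_sum, Finset.sum_const, smul_eq_mul] at h1
  have h3 : ∑ φ ∈ Φ, T.offDiag.card ≤
      ∑ φ ∈ Φ, 2 * k * (T.offDiag.filter (fun p => φ p.1 = φ p.2)).card :=
    Finset.sum_le_sum fun φ _ => mono_pairs hk T hT φ
  rw [Finset.sum_const, smul_eq_mul, mul_comm] at h3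
  omega

/-- Few edges meet a set `W` in at least `2k` vertices. -/
lemma few_edges {V ι : Type} [DecidableEq V] [Fintype ι] [Nonempty V]
    {e : ι → Finset V} {k : ℕ} (hk : 1 ≤ k) (h : AllCol e k) (W : Finset V) :
    (Finset.univ.filter (fun i => 2 * k ≤ (e i ∩ W).card)).card ≤ 2 * k ^ 2 * W.card := by
  classical
  -- selection of pairs
  have hsel : ∀ S : Finset ι, (∀ i ∈ S, 2 * k ≤ (e i ∩ W).card) →
      ∃ p : ι → V × V, (∀ i ∈ S, p i ∈ (e i ∩ W).offDiag) ∧
        (2 * k) ^ S.card * (Finset.univ.filter (fun φ : W → Fin k => ∀ i ∈ S,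
          ∀ (h1 : (p i).1 ∈ W) (h2 : (p i).2 ∈ W), φ ⟨_, h1⟩ ≠ φ ⟨_, h2⟩)).card ≤
        (2 * k - 1) ^ S.card * k ^ W.card := by
    intro S
    induction S using Finset.induction_on with
    | empty =>
      intro _
      obtain ⟨x⟩ := (inferInstance : Nonempty V)
      refine ⟨fun _ => (x, x), by simp, ?_⟩
      simp
    | insert i S hi ih =>
      intro hS
      obtain ⟨p, hp1, hp2⟩ := ih (fun j hj => hS j (Finset.mem_insert_of_mem hj))
      set Φ := Finset.univ.filter (fun φ : W → Fin k => ∀ i ∈ S,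
          ∀ (h1 : (p i).1 ∈ W) (h2 : (p i).2 ∈ W), φ ⟨_, h1⟩ ≠ φ ⟨_, h2⟩) with hΦ
      -- the trace of the edge as a finset of `W`
      set T : Finset W := (e i ∩ W).attach.image
        (fun x => (⟨x.1, (Finset.mem_inter.mp x.2).2⟩ : W)) with hTdef
      have hT : 2 * k ≤ T.card := by
        rw [hTdef, Finset.card_image_of_injective, Finset.card_attach]
        · exact hS i (Finset.mem_insert_self _ _)
        · intro a b hab
          apply Subtype.ext
          exact congrArg (fun z : W => (z : V)) hab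
      obtain ⟨⟨a, b⟩, hab, hcard⟩ := exists_pair hk T hT Φ
      rw [Finset.mem_offDiag] at hab
      obtain ⟨ha, hb, hne⟩ := hab
      have hmemT : ∀ x : W, x ∈ T → (x : V) ∈ e i ∩ W := by
        intro x hx
        rw [hTdef, Finset.mem_image] at hx
        obtain ⟨y, _, rfl⟩ := hx
        exact y.2
      refine ⟨Function.update p i ((a : V), (b : V)), ?_, ?_⟩
      · intro j hj
        rcases Finset.mem_insert.mp hj with rfl | hj'
        · rw [Function.update_self, Finset.mem_offDiag]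
          exact ⟨hmemT a ha, hmemT b hb, fun hh => hne (Subtype.ext hh)⟩
        · have hji : j ≠ i := fun hh => hi (hh ▸ hj')
          rw [Function.update_of_ne hji]
          exact hp1 j hj'
      · have hsub : (Finset.univ.filter (fun φ : W → Fin k => ∀ j ∈ insert i S,
            ∀ (h1 : (Function.update p i ((a : V), (b : V)) j).1 ∈ W)
              (h2 : (Function.update p i ((a : V), (b : V)) j).2 ∈ W),
              φ ⟨_, h1⟩ ≠ φ ⟨_, h2⟩)) ⊆ Φ \ Φ.filter (fun φ => φ a = φ b) := by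
          intro φ hφ
          have hφ2 := (Finset.mem_filter.mp hφ).2
          refine Finset.mem_sdiff.mpr ⟨?_, ?_⟩
          · refine Finset.mem_filter.mpr ⟨Finset.mem_univ _, ?_⟩
            intro j hj
            have hji : j ≠ i := fun hh => hi (hh ▸ hj)
            have h3 := hφ2 j (Finset.mem_insert_of_mem hj)
            rw [Function.update_of_ne hji] at h3
            exact h3
          · intro hmem
            have h4 := (Finset.mem_filter.mp hmem).2
            have h3 := hφ2 i (Finset.mem_insert_self _ _)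
            rw [Function.update_self] at h3
            exact h3 a.2 b.2 h4
        have hc := Finset.card_le_card hsub
        rw [Finset.card_sdiff_of_subset (Finset.filter_subset _ _)] at hc
        have hle : (Φ.filter (fun φ => φ a = φ b)).card ≤ Φ.card :=
          Finset.card_le_card (Finset.filter_subset _ _)
        rw [Finset.card_insert_of_notMem hi, pow_succ, pow_succ]
        set A := (Finset.univ.filter (fun φ : W → Fin k => ∀ j ∈ insert i S,
            ∀ (h1 : (Function.update p i ((a : V), (b : V)) j).1 ∈ W)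
              (h2 : (Function.update p i ((a : V), (b : V)) j).2 ∈ W),
              φ ⟨_, h1⟩ ≠ φ ⟨_, h2⟩)).card with hA
        set B := (Φ.filter (fun φ => φ a = φ b)).card with hB
        have h5 : 2 * k * A ≤ (2 * k - 1) * Φ.card := by
          have h6 : A + B ≤ Φ.card := by omega
          have h7 : (2 * k - 1) * Φ.card = 2 * k * Φ.card - Φ.card := by
            rw [Nat.sub_mul, one_mul]
          rw [h7]
          have h8 : 2 * k * (A + B) ≤ 2 * k * Φ.card := Nat.mul_le_mul_left _ h6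
          rw [mul_add] at h8
          omega
        calc (2 * k) ^ S.card * (2 * k) * A = (2 * k) ^ S.card * (2 * k * A) := by ring
          _ ≤ (2 * k) ^ S.card * ((2 * k - 1) * Φ.card) := Nat.mul_le_mul_left _ h5
          _ = (2 * k - 1) * ((2 * k) ^ S.card * Φ.card) := by ring
          _ ≤ (2 * k - 1) * ((2 * k - 1) ^ S.card * k ^ W.card) := Nat.mul_le_mul_left _ hp2
          _ = (2 * k - 1) ^ S.card * (2 * k - 1) * k ^ W.card := by ring
  set S := Finset.univ.filter (fun i => 2 * k ≤ (e i ∩ W).card) with hSdef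
  obtain ⟨p, hp1, hp2⟩ := hsel S (fun i hi => (Finset.mem_filter.mp hi).2)
  -- extend to an admissible choice
  have hq : ∀ i, ∃ q : V × V, (2 ≤ (e i).card → q.1 ∈ e i ∧ q.2 ∈ e i ∧ q.1 ≠ q.2) ∧
      (i ∈ S → q = p i) := by
    intro i
    by_cases hi : i ∈ S
    · refine ⟨p i, fun _ => ?_, fun _ => rfl⟩
      have := hp1 i hi
      rw [Finset.mem_offDiag] at this
      exact ⟨(Finset.mem_inter.mp this.1).1, (Finset.mem_inter.mp this.2.1).1, this.2.2⟩
    · by_cases h2 : 2 ≤ (e i).card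
      · obtain ⟨a, ha, b, hb, hab⟩ := Finset.one_lt_card.mp h2
        exact ⟨(a, b), fun _ => ⟨ha, hb, hab⟩, fun h3 => absurd h3 hi⟩
      · obtain ⟨x⟩ := (inferInstance : Nonempty V)
        exact ⟨(x, x), fun h3 => absurd h3 h2, fun h3 => absurd h3 hi⟩
  choose q hq1 hq2 using hq
  obtain ⟨φ, hφ⟩ := h q hq1
  have hmem : (fun x : W => φ x) ∈ Finset.univ.filter (fun φ : W → Fin k => ∀ i ∈ S,
          ∀ (h1 : (p i).1 ∈ W) (h2 : (p i).2 ∈ W), φ ⟨_, h1⟩ ≠ φ ⟨_, h2⟩) := by
    rw [Finset.mem_filter]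
    refine ⟨Finset.mem_univ _, ?_⟩
    intro i hi h1 h2
    have h3 := hp1 i hi
    rw [Finset.mem_offDiag] at h3
    have h4 : 2 ≤ (e i).card := Finset.one_lt_card.mpr
      ⟨_, (Finset.mem_inter.mp h3.1).1, _, (Finset.mem_inter.mp h3.2.1).1, h3.2.2⟩
    have h5 := hφ i h4
    rw [hq2 i hi] at h5
    exact h5
  have hpos : 1 ≤ (Finset.univ.filter (fun φ : W → Fin k => ∀ i ∈ S,
          ∀ (h1 : (p i).1 ∈ W) (h2 : (p i).2 ∈ W), φ ⟨_, h1⟩ ≠ φ ⟨_, h2⟩)).card :=
    Finset.card_pos.mpr ⟨_, hmem⟩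
  have hfin : (2 * k) ^ S.card ≤ (2 * k - 1) ^ S.card * k ^ W.card :=
    le_trans (Nat.le_mul_of_pos_right _ hpos) hp2
  -- numerical conclusion
  by_contra hlt
  push Not at hlt
  have hkey : ((2 * k - 1 : ℕ)) ^ (2 * k ^ 2) * k < (2 * k) ^ (2 * k ^ 2) := by
    have hk' : (0 : ℚ) < 2 * k - 1 := by
      have : (1 : ℚ) ≤ k := by exact_mod_cast hk
      linarith
    have hcast : ((2 * k - 1 : ℕ) : ℚ) = 2 * k - 1 := by
      rw [Nat.cast_sub (by omega)]
      push_cast
      ring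
    have h8 : (1 : ℚ) + (2 * k ^ 2 : ℕ) * (1 / (2 * k - 1)) ≤
        (1 + 1 / (2 * k - 1)) ^ (2 * k ^ 2) :=
      one_add_mul_le_pow (by
        have : (0 : ℚ) ≤ 1 / (2 * k - 1) := by positivity
        linarith) _
    have h9 : (k : ℚ) < 1 + (2 * k ^ 2 : ℕ) * (1 / (2 * k - 1)) := by
      push_cast
      rw [mul_one_div, ← sub_lt_iff_lt_add', lt_div_iff₀ hk']
      nlinarith
    have h10 : (k : ℚ) < (1 + 1 / (2 * k - 1)) ^ (2 * k ^ 2) := lt_of_lt_of_le h9 h8
    have h11 : (1 : ℚ) + 1 / (2 * k - 1) = (2 * k) / (2 * k - 1) := by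
      field_simp
      ring
    rw [h11, div_pow, lt_div_iff₀ (by positivity)] at h10
    have h12 : (((2 * k - 1 : ℕ) ^ (2 * k ^ 2) * k : ℕ) : ℚ) < (((2 * k) ^ (2 * k ^ 2) : ℕ) : ℚ) := by
      push_cast
      rw [hcast]
      linarith
    exact_mod_cast h12
  have hWS : ((2 * k - 1) ^ (2 * k ^ 2) * k) ^ W.card ≤ ((2 * k) ^ (2 * k ^ 2)) ^ W.card :=
    Nat.pow_le_pow_left hkey.le _
  -- strictness from `S.card > 2 k² |W|`
  obtain ⟨d, hd⟩ : ∃ d, S.card = 2 * k ^ 2 * W.card + (d + 1) :=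
    ⟨S.card - 2 * k ^ 2 * W.card - 1, by omega⟩
  have hfin' : ((2 * k) ^ (2 * k ^ 2)) ^ W.card * (2 * k) ^ (d + 1) ≤
      ((2 * k - 1) ^ (2 * k ^ 2)) ^ W.card * (2 * k - 1) ^ (d + 1) * k ^ W.card := by
    rw [← pow_mul, ← pow_add, ← pow_mul, ← pow_add, ← hd]
    exact hfin
  rw [mul_pow] at hWS
  have h20 : (2 * k - 1) ^ (d + 1) < (2 * k) ^ (d + 1) :=
    Nat.pow_lt_pow_left (by omega) (by omega)
  have hposA : 0 < ((2 * k) ^ (2 * k ^ 2)) ^ W.card := by positivity
  have h21 : ((2 * k - 1) ^ (2 * k ^ 2)) ^ W.card * (2 * k - 1) ^ (d + 1) * k ^ W.card ≤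
      ((2 * k) ^ (2 * k ^ 2)) ^ W.card * (2 * k - 1) ^ (d + 1) := by
    calc ((2 * k - 1) ^ (2 * k ^ 2)) ^ W.card * (2 * k - 1) ^ (d + 1) * k ^ W.card
        = (((2 * k - 1) ^ (2 * k ^ 2)) ^ W.card * k ^ W.card) * (2 * k - 1) ^ (d + 1) := by ring
      _ ≤ _ := Nat.mul_le_mul_right _ hWS
  have h22 : ((2 * k) ^ (2 * k ^ 2)) ^ W.card * (2 * k) ^ (d + 1) ≤
      ((2 * k) ^ (2 * k ^ 2)) ^ W.card * (2 * k - 1) ^ (d + 1) := le_trans hfin' h21
  have h23 := Nat.le_of_mul_le_mul_left h22 hposA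
  omega

end Pool.Agent.Lib.MP_96d021
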