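import Pool.Agent.Lib.MP_96d021.Part

set_option autoImplicit false

namespace Pool.Agent.Lib.MP_96d021

open Finset

/-- The ordering and the first colouring. -/
lemma ordering {V ι : Type} [Fintype V] [DecidableEq V] [Fintype ι] [Nonempty V]
    {e : ι → Finset V} {k r : ℕ} (hk : 2 ≤ k) (h : AllCol e k) (hr : ∀ i, (e i).card ≤ r)
    (n : ℕ) : ∀ U : Finset V, U.card = n →
    ∃ (c : V → Fin (512 * k ^ 4 * r + 1)) (key : V → ℕ), (∀ x ∈ U, key x ≤ n) ∧
      (∀ x ∈ U, ∀ y ∈ U, key x = key y → x = y) ∧
      ∀ i, ∀ u ∈ e i ∩ U, ∀ v ∈ e i ∩ U, key v < key u → c u = c v →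
        ((e i ∩ U).filter (fun w => key w ≤ key u)).card < 4 * k := by
  classical
  induction n with
  | zero =>
    intro U hU
    rw [Finset.card_eq_zero] at hU
    subst hU
    refine ⟨fun _ => 0, fun _ => 0, by simp, by simp, ?_⟩
    intro i u hu
    simp at hu
  | succ n ih =>
    intro U hU
    have hne : U.Nonempty := by
      rw [← Finset.card_pos]
      omega
    obtain ⟨v, hv, hlow⟩ := exists_low hk h hr U hne
    obtain ⟨c, key, hkey, hinj, hc⟩ := ih (U.erase v) (by
      rw [Finset.card_erase_of_mem hv]
      omega)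
    -- choose a colour for `v`
    set B := U.filter (fun u => ∃ i, u ∈ e i ∧ v ∈ e i ∧ 4 * k ≤ (e i ∩ U).card) with hB
    obtain ⟨a, ha⟩ : ∃ a : Fin (512 * k ^ 4 * r + 1), a ∉ B.image c := by
      by_contra hcon
      push Not at hcon
      have h1 : (Finset.univ : Finset (Fin (512 * k ^ 4 * r + 1))) ⊆ B.image c :=
        fun x _ => hcon x
      have h2 := Finset.card_le_card h1
      have h3 : (B.image c).card ≤ B.card := Finset.card_image_le
      rw [Finset.card_univ, Fintype.card_fin] at h2
      omega
    refine ⟨Function.update c v a, Function.update key v (n + 1), ?_, ?_, ?_⟩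
    · intro x hx
      by_cases hxv : x = v
      · subst hxv
        rw [Function.update_self]
      · rw [Function.update_of_ne hxv]
        exact (hkey x (Finset.mem_erase.mpr ⟨hxv, hx⟩)).trans (Nat.le_succ n)
    · intro x hx y hy hxy
      by_cases hxv : x = v
      · by_cases hyv : y = v
        · rw [hxv, hyv]
        · exfalso
          rw [hxv, Function.update_self, Function.update_of_ne hyv] at hxy
          have := hkey y (Finset.mem_erase.mpr ⟨hyv, hy⟩)
          omega
      · by_cases hyv : y = v
        · exfalso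
          rw [hyv, Function.update_self, Function.update_of_ne hxv] at hxy
          have := hkey x (Finset.mem_erase.mpr ⟨hxv, hx⟩)
          omega
        · rw [Function.update_of_ne hxv, Function.update_of_ne hyv] at hxy
          exact hinj x (Finset.mem_erase.mpr ⟨hxv, hx⟩) y (Finset.mem_erase.mpr ⟨hyv, hy⟩) hxy
    · intro i u hu w hw hlt hcol
      obtain ⟨hui, huU⟩ := Finset.mem_inter.mp hu
      obtain ⟨hwi, hwU⟩ := Finset.mem_inter.mp hw
      -- the vertex with the larger key
      by_cases huv : u = v
      · have hwv : w ≠ v := by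
          intro hh
          rw [huv, hh] at hlt
          exact lt_irrefl _ hlt
        rw [huv, Function.update_self, Function.update_of_ne hwv] at hcol
        have hwB : w ∉ B := fun hh => ha (Finset.mem_image.mpr ⟨w, hh, hcol.symm⟩)
        have hsmall : ¬ 4 * k ≤ (e i ∩ U).card := by
          intro hh
          apply hwB
          rw [hB, Finset.mem_filter]
          exact ⟨hwU, i, hwi, huv ▸ hui, hh⟩
        have h4 : ((e i ∩ U).filter (fun w => Function.update key v (n + 1) w ≤
            Function.update key v (n + 1) u)).card ≤ (e i ∩ U).card :=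
          Finset.card_le_card (Finset.filter_subset _ _)
        omega
      · have hwv : w ≠ v := by
          intro hh
          rw [hh, Function.update_self, Function.update_of_ne huv] at hlt
          have := hkey u (Finset.mem_erase.mpr ⟨huv, huU⟩)
          omega
        rw [Function.update_of_ne huv, Function.update_of_ne hwv] at hcol hlt
        have h5 := hc i u (Finset.mem_inter.mpr ⟨hui, Finset.mem_erase.mpr ⟨huv, huU⟩⟩) w
          (Finset.mem_inter.mpr ⟨hwi, Finset.mem_erase.mpr ⟨hwv, hwU⟩⟩) hlt hcol
        refine lt_of_le_of_lt (Finset.card_le_card ?_) h5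
        intro x hx
        rw [Finset.mem_filter, Finset.mem_inter] at hx
        obtain ⟨⟨hxi, hxU⟩, hxk⟩ := hx
        rw [Function.update_of_ne huv] at hxk
        have hxv : x ≠ v := by
          intro hh
          rw [hh, Function.update_self] at hxk
          have := hkey u (Finset.mem_erase.mpr ⟨huv, huU⟩)
          omega
        rw [Function.update_of_ne hxv] at hxk
        rw [Finset.mem_filter, Finset.mem_inter]
        exact ⟨⟨hxi, Finset.mem_erase.mpr ⟨hxv, hxU⟩⟩, hxk⟩

theorem strong_colouring {V ι : Type} [Fintype V] [DecidableEq V] [Fintype ι] [Nonempty V]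
    {e : ι → Finset V} {k r : ℕ} (hk : 2 ≤ k) (h : AllCol e k) (hr : ∀ i, (e i).card ≤ r) :
    ∃ c : V → Fin (512 * k ^ 4 * r + 1) × (Fin (4 * k) × Fin (4 * k) → Fin k),
      ∀ i, ∀ u ∈ e i, ∀ v ∈ e i, c u = c v → u = v := by
  classical
  obtain ⟨c, key, hkey, hinj, hc⟩ := ordering hk h hr _ (Finset.univ : Finset V) rfl
  set L : ι → Finset V := fun i =>
    (e i).filter (fun x => ((e i).filter (fun w => key w ≤ key x)).card < 4 * k) with hL
  have hLsub : ∀ i, L i ⊆ e i := fun i => Finset.filter_subset _ _
  have hLcard : ∀ i, (L i).card ≤ 4 * k := by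
    intro i
    rcases (L i).eq_empty_or_nonempty with h0 | hne
    · rw [h0]; simp
    · obtain ⟨x, hx, hmax⟩ := Finset.exists_max_image (L i) key hne
      have hx2 := (Finset.mem_filter.mp hx).2
      refine le_trans (Finset.card_le_card ?_) hx2.le
      intro y hy
      rw [Finset.mem_filter]
      exact ⟨hLsub i hy, hmax y hy⟩
  obtain ⟨c', hc'⟩ := small_part h L hLsub (4 * k) hLcard
  refine ⟨fun x => (c x, c' x), ?_⟩
  have key1 : ∀ i, ∀ u ∈ e i, ∀ v ∈ e i, key v < key u → (c u, c' u) ≠ (c v, c' v) := by
    intro i u hu v hv hlt heq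
    rw [Prod.mk.injEq] at heq
    have h1 := hc i u (by simpa using hu) v (by simpa using hv) hlt heq.1
    rw [Finset.inter_univ] at h1
    have huL : u ∈ L i := Finset.mem_filter.mpr ⟨hu, h1⟩
    have hvL : v ∈ L i := by
      refine Finset.mem_filter.mpr ⟨hv, lt_of_le_of_lt (Finset.card_le_card ?_) h1⟩
      intro x hx
      rw [Finset.mem_filter] at hx ⊢
      exact ⟨hx.1, hx.2.trans hlt.le⟩
    exact hc' i u huL v hvL (fun hh => by rw [hh] at hlt; exact lt_irrefl _ hlt) heq.2
  intro i u hu v hv heq
  rcases lt_trichotomy (key u) (key v) with h1 | h1 | h1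
  · exact absurd heq.symm (key1 i v hv u hu h1)
  · exact hinj u (Finset.mem_univ _) v (Finset.mem_univ _) h1
  · exact absurd heq (key1 i u hu v hv h1)

end Pool.Agent.Lib.MP_96d021
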