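import Pool.Agent.Lib.MP_96d021.Core

set_option autoImplicit false

namespace Pool.Agent.Lib.MP_96d021

open Finset

/-! ### Random partitions -/

/-- Number of maps identifying two distinct points. -/
lemma collision {V : Type} [Fintype V] [DecidableEq V] {q : ℕ} {x y : V} (hxy : x ≠ y) :
    q * (Finset.univ.filter (fun f : V → Fin q => f x = f y)).card = q ^ Fintype.card V := by
  have h1 : Fintype.card ({f : V → Fin q // f x = f y} × Fin q) = Fintype.card (V → Fin q) := by
    apply Fintype.card_congr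
    refine ⟨fun ft => Function.update ft.1.1 x ft.2,
      fun g => (⟨Function.update g x (g y), by
        rw [Function.update_self, Function.update_of_ne hxy.symm]⟩, g x), ?_, ?_⟩
    · rintro ⟨⟨f, hf⟩, t⟩
      simp only [Prod.mk.injEq, Subtype.mk.injEq]
      constructor
      · funext z
        by_cases hz : z = x
        · subst hz
          rw [Function.update_self, Function.update_of_ne hxy.symm]
          exact hf.symm
        · rw [Function.update_of_ne hz, Function.update_of_ne hz]
      · rw [Function.update_self]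
    · intro g
      funext z
      by_cases hz : z = x
      · subst hz
        simp
      · simp [Function.update_of_ne hz]
  rw [Fintype.card_prod, Fintype.card_fin, Fintype.card_fun, Fintype.card_fin,
    Fintype.card_subtype] at h1
  rw [← h1]
  ring

/-- Second moment of the sizes of the parts of a random partition of `T`. -/
lemma second_moment {V : Type} [Fintype V] [DecidableEq V] {q : ℕ} (T : Finset V) :
    q * ∑ f : V → Fin q, ∑ j : Fin q, (T.filter (fun x => f x = j)).card ^ 2 =
      q ^ Fintype.card V * (q * T.card + (T.card * T.card - T.card)) := by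
  have h1 : ∀ f : V → Fin q, ∑ j : Fin q, (T.filter (fun x => f x = j)).card ^ 2 =
      ((T ×ˢ T).filter (fun p => f p.1 = f p.2)).card := by
    intro f
    rw [Finset.card_eq_sum_card_fiberwise (f := fun p : V × V => f p.1) (t := Finset.univ)
      (fun _ _ => Finset.mem_coe.mpr (Finset.mem_univ _))]
    apply Finset.sum_congr rfl
    intro j _
    rw [sq, ← Finset.card_product]
    congr 1
    ext ⟨a, b⟩
    simp only [mem_filter, mem_product]
    constructor
    · rintro ⟨⟨ha, haj⟩, ⟨hb, hbj⟩⟩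
      exact ⟨⟨⟨ha, hb⟩, haj.trans hbj.symm⟩, haj⟩
    · rintro ⟨⟨⟨ha, hb⟩, hab⟩, haj⟩
      exact ⟨⟨ha, haj⟩, ⟨hb, hab ▸ haj⟩⟩
  rw [Finset.sum_congr rfl (fun f _ => h1 f)]
  simp only [Finset.card_filter]
  rw [Finset.sum_comm, Finset.mul_sum]
  have h2 : ∀ p ∈ T ×ˢ T, q * ∑ f : V → Fin q, (if f p.1 = f p.2 then 1 else 0) =
      if p.1 = p.2 then q * q ^ Fintype.card V else q ^ Fintype.card V := by
    intro p _
    rw [← Finset.card_filter]
    by_cases hp : p.1 = p.2
    · rw [if_pos hp]
      simp [hp, Finset.card_univ]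
    · rw [if_neg hp]
      exact collision hp
  rw [Finset.sum_congr rfl h2, Finset.sum_ite, Finset.sum_const, Finset.sum_const, smul_eq_mul,
    smul_eq_mul]
  have h3 : ((T ×ˢ T).filter (fun p => p.1 = p.2)).card = T.card := by
    have : (T ×ˢ T).filter (fun p => p.1 = p.2) = T.diag := by
      ext ⟨a, b⟩
      simp only [mem_filter, mem_product, mem_diag]
      constructor
      · rintro ⟨⟨ha, hb⟩, hab⟩
        exact ⟨ha, hab⟩
      · rintro ⟨ha, hab⟩
        exact ⟨⟨ha, hab ▸ ha⟩, hab⟩
    rw [this, Finset.diag_card]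
  have h4 : ((T ×ˢ T).filter (fun p => ¬ p.1 = p.2)).card = T.card * T.card - T.card := by
    have : (T ×ˢ T).filter (fun p => ¬ p.1 = p.2) = T.offDiag := by
      ext ⟨a, b⟩
      simp only [mem_filter, mem_product, mem_offDiag]
      tauto
    rw [this, Finset.offDiag_card]
  rw [h3, h4]
  ring

/-- In a random partition of the vertex set into `q` parts, on average at least half of the parts
contain at least `2k` points of a set `T` with `|T| ≥ 4kq`. -/
lemma many_parts {V : Type} [Fintype V] [DecidableEq V] {k q : ℕ} (hk : 2 ≤ k)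
    (hq : 1 ≤ q) (T : Finset V) (hT : 4 * k * q ≤ T.card) :
    q ^ Fintype.card V * q ≤ 2 * ∑ f : V → Fin q,
      (Finset.univ.filter (fun j : Fin q => 2 * k ≤ (T.filter (fun x => f x = j)).card)).card := by
  set m := T.card with hm
  set n := Fintype.card V with hn
  -- pointwise Chebyshev inequality, summed
  have hpt : ∀ f : V → Fin q,
      (q : ℤ) * ((m : ℤ) - 2 * k * q) ^ 2 ≤ ((m : ℤ) - 2 * k * q) ^ 2 *
        ((Finset.univ.filter
          (fun j : Fin q => 2 * k ≤ (T.filter (fun x => f x = j)).card)).card : ℤ) +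
        (q ^ 2 * ∑ j : Fin q, ((T.filter (fun x => f x = j)).card : ℤ) ^ 2 - q * m ^ 2) := by
    intro f
    have hsum : ∑ j : Fin q, ((T.filter (fun x => f x = j)).card : ℤ) = m := by
      rw [hm, Finset.card_eq_sum_card_fiberwise (f := f) (t := Finset.univ)
        (fun _ _ => Finset.mem_coe.mpr (Finset.mem_univ _))]
      push_cast
      rfl
    have h1 : ∀ j : Fin q, ((m : ℤ) - 2 * k * q) ^ 2 ≤
        ((m : ℤ) - 2 * k * q) ^ 2 *
          (if 2 * k ≤ (T.filter (fun x => f x = j)).card then 1 else 0) +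
        ((q : ℤ) * ((T.filter (fun x => f x = j)).card : ℤ) - m) ^ 2 := by
      intro j
      split_ifs with hj
      · nlinarith [sq_nonneg ((q : ℤ) * ((T.filter (fun x => f x = j)).card : ℤ) - m)]
      · rw [mul_zero, zero_add]
        push Not at hj
        have h2 : ((T.filter (fun x => f x = j)).card : ℤ) < 2 * k := by exact_mod_cast hj
        have h3 : (4 * k * q : ℤ) ≤ m := by exact_mod_cast hT
        have hq' : (1 : ℤ) ≤ q := by exact_mod_cast hq
        have h4 : (q : ℤ) * ((T.filter (fun x => f x = j)).card : ℤ) ≤ q * (2 * k) :=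
          mul_le_mul_of_nonneg_left h2.le (by linarith)
        have h5 : (0 : ℤ) ≤ (m : ℤ) - 2 * k * q := by nlinarith
        have h6 : (m : ℤ) - 2 * k * q ≤
            m - (q : ℤ) * ((T.filter (fun x => f x = j)).card : ℤ) := by nlinarith
        nlinarith
    have h7 := Finset.sum_le_sum (fun j (_ : j ∈ (Finset.univ : Finset (Fin q))) => h1 j)
    rw [Finset.sum_const, Finset.card_univ, Fintype.card_fin, nsmul_eq_mul,
      Finset.sum_add_distrib, ← Finset.mul_sum] at h7
    have h8 : ∑ j : Fin q, ((q : ℤ) * ((T.filter (fun x => f x = j)).card : ℤ) - m) ^ 2 =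
        q ^ 2 * ∑ j : Fin q, ((T.filter (fun x => f x = j)).card : ℤ) ^ 2 - q * m ^ 2 := by
      have h9 : ∀ j : Fin q, ((q : ℤ) * ((T.filter (fun x => f x = j)).card : ℤ) - m) ^ 2 =
          q ^ 2 * ((T.filter (fun x => f x = j)).card : ℤ) ^ 2 -
            2 * q * m * ((T.filter (fun x => f x = j)).card : ℤ) + m ^ 2 := by
        intro j
        ring
      simp only [h9]
      rw [Finset.sum_add_distrib, Finset.sum_sub_distrib, ← Finset.mul_sum, ← Finset.mul_sum,
        hsum, Finset.sum_const, Finset.card_univ, Fintype.card_fin, nsmul_eq_mul]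
      ring
    rw [h8] at h7
    rw [Finset.card_filter]
    push_cast
    exact h7
  have hall := Finset.sum_le_sum (fun f (_ : f ∈ (Finset.univ : Finset (V → Fin q))) => hpt f)
  rw [Finset.sum_const, Finset.card_univ, Fintype.card_fun, Fintype.card_fin, nsmul_eq_mul,
    Finset.sum_add_distrib, ← Finset.mul_sum, Finset.sum_sub_distrib, ← Finset.mul_sum,
    Finset.sum_const, Finset.card_univ, Fintype.card_fun, Fintype.card_fin, nsmul_eq_mul,
    ← hn] at hall
  have hsm := second_moment (q := q) T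
  have hmm : (T.card * T.card - T.card : ℕ) = T.card * (T.card - 1) := by
    rw [Nat.mul_sub, mul_one]
  have hm1 : 1 ≤ m := by nlinarith
  have hsm' : (q : ℤ) * ∑ f : V → Fin q, ∑ j : Fin q, ((T.filter (fun x => f x = j)).card : ℤ) ^ 2 =
      (q : ℤ) ^ n * (q * m + m * (m - 1)) := by
    have h10 : ((q * ∑ f : V → Fin q, ∑ j : Fin q, (T.filter (fun x => f x = j)).card ^ 2 : ℕ) : ℤ) =
        ((q ^ n * (q * m + m * (m - 1)) : ℕ) : ℤ) := by
      rw [hsm, hmm]
    push_cast at h10
    rw [Nat.cast_sub hm1] at h10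
    push_cast at h10
    exact h10
  set J := ∑ f : V → Fin q, ((Finset.univ.filter
          (fun j : Fin q => 2 * k ≤ (T.filter (fun x => f x = j)).card)).card : ℤ) with hJ
  set S2 := ∑ f : V → Fin q, ∑ j : Fin q, ((T.filter (fun x => f x = j)).card : ℤ) ^ 2 with hS2
  push_cast at hall
  -- final computation
  have hP : (0 : ℤ) < (q : ℤ) ^ n := by positivity
  have hq' : (1 : ℤ) ≤ q := by exact_mod_cast hq
  have hk' : (2 : ℤ) ≤ k := by exact_mod_cast hk
  have hT' : (4 * k * q : ℤ) ≤ m := by exact_mod_cast hT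
  have hS2' : (q : ℤ) ^ 2 * S2 = (q : ℤ) ^ n * (q * (q * m + m * (m - 1))) := by
    calc (q : ℤ) ^ 2 * S2 = q * (q * S2) := by ring
      _ = q * ((q : ℤ) ^ n * (q * m + m * (m - 1))) := by rw [hsm']
      _ = _ := by ring
  rw [hS2'] at hall
  set a : ℤ := (m : ℤ) - 2 * k * q with ha
  have ha1 : (m : ℤ) ≤ 2 * a := by rw [ha]; linarith
  have hmpos : (0 : ℤ) ≤ m := by positivity
  have ha2 : (q : ℤ) * q * m * 2 ≤ q * a ^ 2 := by
    -- `a² ≥ m²/4 ≥ m k q ≥ 2 q m`
    have h11 : (m : ℤ) * m ≤ 4 * a ^ 2 := by nlinarith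
    have h12 : (8 : ℤ) * (q * m) ≤ m * m := by nlinarith
    nlinarith
  have hfinal : (q : ℤ) ^ n * (q * a ^ 2) ≤ 2 * (a ^ 2 * J) := by
    have h13 : (q : ℤ) ^ n * (q * (q * m + m * (m - 1))) - (q : ℤ) ^ n * (q * m ^ 2) =
        (q : ℤ) ^ n * (q * q * m) - (q : ℤ) ^ n * (q * m) := by ring
    rw [h13] at hall
    have h16 : (0 : ℤ) ≤ (q : ℤ) ^ n * (q * m) := by positivity
    have h14 : (q : ℤ) ^ n * (q * q * m * 2) ≤ (q : ℤ) ^ n * (q * a ^ 2) :=
      mul_le_mul_of_nonneg_left ha2 hP.le
    have h17 : (q : ℤ) ^ n * (q * q * m * 2) = 2 * ((q : ℤ) ^ n * (q * q * m)) := by ring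
    rw [h17] at h14
    linarith
  have hapos : (0 : ℤ) < a ^ 2 := by
    have : (0 : ℤ) < a := by nlinarith
    positivity
  have hres : (q : ℤ) ^ n * q ≤ 2 * J := by
    have h15 : a ^ 2 * ((q : ℤ) ^ n * q) ≤ a ^ 2 * (2 * J) := by
      have e1 : a ^ 2 * ((q : ℤ) ^ n * q) = (q : ℤ) ^ n * (q * a ^ 2) := by ring
      have e2 : a ^ 2 * (2 * J) = 2 * (a ^ 2 * J) := by ring
      rw [e1, e2]
      exact hfinal
    exact le_of_mul_le_mul_left h15 hapos
  rw [hJ] at hres
  exact_mod_cast hres

/-- Few edges meet a set `U` in at least `4kq` vertices. -/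
lemma few_large {V ι : Type} [Fintype V] [DecidableEq V] [Fintype ι] [Nonempty V]
    {e : ι → Finset V} {k : ℕ} (hk : 2 ≤ k) (h : AllCol e k) (U : Finset V) {q : ℕ}
    (hq : 1 ≤ q) :
    q * (Finset.univ.filter (fun i => 4 * k * q ≤ (e i ∩ U).card)).card ≤
      4 * k ^ 2 * U.card := by
  classical
  set N := Finset.univ.filter (fun i => 4 * k * q ≤ (e i ∩ U).card) with hN
  have h1 : ∑ i ∈ N, q ^ Fintype.card V * q ≤ ∑ i ∈ N, 2 * ∑ f : V → Fin q,
      (Finset.univ.filter (fun j : Fin q =>
        2 * k ≤ ((e i ∩ U).filter (fun x => f x = j)).card)).card :=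
    Finset.sum_le_sum fun i hi => many_parts hk hq _ (Finset.mem_filter.mp hi).2
  rw [Finset.sum_const, smul_eq_mul, ← Finset.mul_sum, Finset.sum_comm] at h1
  have h2 : ∀ f : V → Fin q, ∑ i ∈ N, (Finset.univ.filter (fun j : Fin q =>
        2 * k ≤ ((e i ∩ U).filter (fun x => f x = j)).card)).card ≤ 2 * k ^ 2 * U.card := by
    intro f
    have h3 : ∑ i ∈ N, (Finset.univ.filter (fun j : Fin q =>
        2 * k ≤ ((e i ∩ U).filter (fun x => f x = j)).card)).card =
        ∑ j : Fin q, (N.filter (fun i =>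
          2 * k ≤ ((e i ∩ U).filter (fun x => f x = j)).card)).card := by
      simp only [Finset.card_filter]
      exact Finset.sum_comm
    rw [h3]
    have h4 : ∀ j : Fin q, (N.filter (fun i =>
          2 * k ≤ ((e i ∩ U).filter (fun x => f x = j)).card)).card ≤
          2 * k ^ 2 * (U.filter (fun x => f x = j)).card := by
      intro j
      refine le_trans (Finset.card_le_card ?_)
        (few_edges (e := e) (by omega) h (U.filter (fun x => f x = j)))
      intro i hi
      rw [Finset.mem_filter] at hi ⊢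
      refine ⟨Finset.mem_univ _, ?_⟩
      have h5 : e i ∩ U.filter (fun x => f x = j) = (e i ∩ U).filter (fun x => f x = j) := by
        ext x
        simp only [mem_inter, mem_filter]
        tauto
      rw [h5]
      exact hi.2
    refine le_trans (Finset.sum_le_sum fun j _ => h4 j) ?_
    rw [← Finset.mul_sum]
    apply le_of_eq
    congr 1
    exact (Finset.card_eq_sum_card_fiberwise (f := f) (t := Finset.univ)
      (fun _ _ => Finset.mem_coe.mpr (Finset.mem_univ _))).symm
  have h6 : 2 * ∑ f : V → Fin q, ∑ i ∈ N, (Finset.univ.filter (fun j : Fin q =>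
        2 * k ≤ ((e i ∩ U).filter (fun x => f x = j)).card)).card ≤
        2 * (q ^ Fintype.card V * (2 * k ^ 2 * U.card)) := by
    apply Nat.mul_le_mul_left
    refine le_trans (Finset.sum_le_sum fun f _ => h2 f) ?_
    rw [Finset.sum_const, smul_eq_mul, Finset.card_univ, Fintype.card_fun, Fintype.card_fin]
  have h7 := le_trans h1 h6
  have hpos : 0 < q ^ Fintype.card V := by positivity
  have h8 : q ^ Fintype.card V * (q * N.card) ≤ q ^ Fintype.card V * (4 * k ^ 2 * U.card) := by
    calc q ^ Fintype.card V * (q * N.card) = N.card * (q ^ Fintype.card V * q) := by ring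
      _ ≤ _ := h7
      _ = _ := by ring
  exact Nat.le_of_mul_le_mul_left h8 hpos

/-- The total squared size of the large traces on `U` is at most linear in `|U|`. -/
lemma sum_sq_large {V ι : Type} [Fintype V] [DecidableEq V] [Fintype ι] [Nonempty V]
    {e : ι → Finset V} {k r : ℕ} (hk : 2 ≤ k) (h : AllCol e k) (hr : ∀ i, (e i).card ≤ r)
    (U : Finset V) :
    ∑ i ∈ Finset.univ.filter (fun i => 4 * k ≤ (e i ∩ U).card), (e i ∩ U).card ^ 2 ≤
      512 * k ^ 4 * r * U.card := by
  classical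
  set N := Finset.univ.filter (fun i => 4 * k ≤ (e i ∩ U).card) with hN
  have h1 : ∀ i ∈ N, (e i ∩ U).card ^ 2 ≤ 64 * k ^ 2 *
      ∑ q ∈ Finset.Icc 1 r, (if 4 * k * q ≤ (e i ∩ U).card then 2 * q else 0) := by
    intro i hi
    have hi' : 4 * k ≤ (e i ∩ U).card := (Finset.mem_filter.mp hi).2
    set m := (e i ∩ U).card with hm
    have hmr : m ≤ r := le_trans (Finset.card_le_card Finset.inter_subset_left) (hr i)
    set s := m / (4 * k) with hs
    have h4k : 0 < 4 * k := by omega
    have hs1 : 1 ≤ s := (Nat.one_le_div_iff h4k).mpr hi'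
    have hs2 : 4 * k * s ≤ m := Nat.mul_div_le m (4 * k)
    have hs3 : m < 4 * k * (s + 1) := by
      have := Nat.lt_mul_div_succ m h4k
      exact this
    have hs4 : m ≤ 8 * k * s := by nlinarith
    have hsr : s ≤ r := by
      have : s ≤ m := Nat.div_le_self _ _
      omega
    have h2 : ∑ q ∈ Finset.Icc 1 s, 2 * q ≤
        ∑ q ∈ Finset.Icc 1 r, (if 4 * k * q ≤ m then 2 * q else 0) := by
      calc ∑ q ∈ Finset.Icc 1 s, 2 * q =
          ∑ q ∈ Finset.Icc 1 s, (if 4 * k * q ≤ m then 2 * q else 0) := by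
            apply Finset.sum_congr rfl
            intro q hq
            rw [if_pos]
            have : q ≤ s := (Finset.mem_Icc.mp hq).2
            exact le_trans (Nat.mul_le_mul_left _ this) hs2
        _ ≤ _ := Finset.sum_le_sum_of_subset (Finset.Icc_subset_Icc_right hsr)
    have h3 : s ^ 2 ≤ ∑ q ∈ Finset.Icc 1 s, 2 * q := by
      clear h2 hs4 hs3 hs2 hsr hs1
      clear_value s
      clear hs
      induction s with
      | zero => simp
      | succ s ih =>
        rw [Finset.sum_Icc_succ_top (by omega)]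
        nlinarith
    calc m ^ 2 ≤ (8 * k * s) ^ 2 := Nat.pow_le_pow_left hs4 2
      _ = 64 * k ^ 2 * s ^ 2 := by ring
      _ ≤ 64 * k ^ 2 * ∑ q ∈ Finset.Icc 1 r, (if 4 * k * q ≤ m then 2 * q else 0) :=
        Nat.mul_le_mul_left _ (le_trans h3 h2)
  refine le_trans (Finset.sum_le_sum h1) ?_
  rw [← Finset.mul_sum, Finset.sum_comm]
  have h5 : ∀ q ∈ Finset.Icc 1 r, ∑ i ∈ N, (if 4 * k * q ≤ (e i ∩ U).card then 2 * q else 0) ≤
      8 * k ^ 2 * U.card := by
    intro q hq
    have hq1 : 1 ≤ q := (Finset.mem_Icc.mp hq).1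
    rw [← Finset.sum_filter, Finset.sum_const, smul_eq_mul]
    have h6 : (N.filter (fun i => 4 * k * q ≤ (e i ∩ U).card)).card ≤
        (Finset.univ.filter (fun i => 4 * k * q ≤ (e i ∩ U).card)).card :=
      Finset.card_le_card (Finset.filter_subset_filter _ (Finset.subset_univ _))
    have h7 := few_large hk h U hq1
    calc (N.filter (fun i => 4 * k * q ≤ (e i ∩ U).card)).card * (2 * q)
        ≤ (Finset.univ.filter (fun i => 4 * k * q ≤ (e i ∩ U).card)).card * (2 * q) :=
          Nat.mul_le_mul_right _ h6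
      _ = 2 * (q * (Finset.univ.filter (fun i => 4 * k * q ≤ (e i ∩ U).card)).card) := by ring
      _ ≤ 2 * (4 * k ^ 2 * U.card) := Nat.mul_le_mul_left _ h7
      _ = 8 * k ^ 2 * U.card := by ring
  have h8 := Finset.sum_le_sum h5
  rw [Finset.sum_const, Nat.card_Icc, smul_eq_mul] at h8
  calc 64 * k ^ 2 * ∑ q ∈ Finset.Icc 1 r, ∑ i ∈ N,
        (if 4 * k * q ≤ (e i ∩ U).card then 2 * q else 0)
      ≤ 64 * k ^ 2 * ((r + 1 - 1) * (8 * k ^ 2 * U.card)) := Nat.mul_le_mul_left _ h8
    _ = 512 * k ^ 4 * r * U.card := by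
      rw [Nat.add_sub_cancel]
      ring

/-- Some vertex of `U` has few large neighbours in `U`. -/
lemma exists_low {V ι : Type} [Fintype V] [DecidableEq V] [Fintype ι] [Nonempty V]
    {e : ι → Finset V} {k r : ℕ} (hk : 2 ≤ k) (h : AllCol e k) (hr : ∀ i, (e i).card ≤ r)
    (U : Finset V) (hU : U.Nonempty) :
    ∃ v ∈ U, (U.filter (fun u => ∃ i, u ∈ e i ∧ v ∈ e i ∧ 4 * k ≤ (e i ∩ U).card)).card ≤
      512 * k ^ 4 * r := by
  classical
  by_contra hcon
  push Not at hcon
  set N := Finset.univ.filter (fun i => 4 * k ≤ (e i ∩ U).card) with hN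
  have h1 : ∀ v ∈ U, (U.filter (fun u => ∃ i, u ∈ e i ∧ v ∈ e i ∧
      4 * k ≤ (e i ∩ U).card)).card ≤ ∑ i ∈ N, (if v ∈ e i then (e i ∩ U).card else 0) := by
    intro v _
    rw [← Finset.sum_filter]
    refine le_trans (Finset.card_le_card ?_) Finset.card_biUnion_le
    intro u hu
    rw [Finset.mem_filter] at hu
    obtain ⟨huU, i, hui, hvi, hi⟩ := hu
    rw [Finset.mem_biUnion]
    exact ⟨i, by rw [Finset.mem_filter, hN, Finset.mem_filter]; exact ⟨⟨Finset.mem_univ _, hi⟩, hvi⟩,
      Finset.mem_inter.mpr ⟨hui, huU⟩⟩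
  have h2 : ∑ v ∈ U, 512 * k ^ 4 * r < ∑ v ∈ U,
      ∑ i ∈ N, (if v ∈ e i then (e i ∩ U).card else 0) :=
    Finset.sum_lt_sum_of_nonempty hU fun v hv => lt_of_lt_of_le (hcon v hv) (h1 v hv)
  rw [Finset.sum_comm, Finset.sum_const, smul_eq_mul] at h2
  have h3 : ∑ i ∈ N, ∑ v ∈ U, (if v ∈ e i then (e i ∩ U).card else 0) =
      ∑ i ∈ N, (e i ∩ U).card ^ 2 := by
    apply Finset.sum_congr rfl
    intro i _
    rw [← Finset.sum_filter, Finset.sum_const, smul_eq_mul, sq]
    congr 2
    ext x
    simp only [mem_filter, mem_inter]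
    tauto
  rw [h3] at h2
  have h4 := sum_sq_large hk h hr U
  rw [mul_comm] at h2
  exact absurd (lt_of_lt_of_le h2 h4) (lt_irrefl _)

end Pool.Agent.Lib.MP_96d021
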